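import Mathlib
import Pool.Agent.Q256.T6.Def

set_option autoImplicit false

/-!
The discriminant of a number field in which an ideal of a subfield becomes an `m`-th power.
-/

namespace Pool.Agent.Q296.T6

open NumberField

/-- a prime of `K` above `p` which divides `J`. -/
theorem exists_prime {K : Type} [Field K] [NumberField K] (J : Ideal (𝓞 K)) (p : ℕ)
    (hp : p.Prime) (hpJ : p ∣ Ideal.absNorm J) :
    ∃ P : Ideal (𝓞 K), P.IsMaximal ∧ P ≠ ⊥ ∧ J ≤ P ∧ ((p : ℕ) : 𝓞 K) ∈ P ∧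
      p ≤ Ideal.absNorm P ∧ Ideal.under ℤ P = Ideal.span {(p : ℤ)} := by
  obtain ⟨P, hP, hu, hd⟩ := Ideal.exists_isMaximal_dvd_of_dvd_absNorm
    (Nat.prime_iff_prime_int.1 hp) J (by exact_mod_cast hpJ)
  have hbot : P ≠ ⊥ := Ideal.IsMaximal.ne_bot_of_isIntegral_int P
  have hmem : ((p : ℕ) : 𝓞 K) ∈ P := by
    have h1 : (p : ℤ) ∈ Ideal.under ℤ P := by
      rw [hu]; exact Ideal.mem_span_singleton_self _
    rw [Ideal.mem_under] at h1
    simpa using h1
  refine ⟨P, hP, hbot, Ideal.le_of_dvd hd, hmem, ?_, hu⟩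
  obtain ⟨q, n, hn, hq, hqp, hN⟩ := Ideal.exists_prime_and_absNorm_eq_pow P
  have hqe : q = p := by
    have h1 : (q : ℤ) ∈ Ideal.under ℤ P := by
      rw [Ideal.mem_under]; simpa using hq
    rw [hu, Ideal.mem_span_singleton] at h1
    have h2 : p ∣ q := by exact_mod_cast h1
    exact ((Nat.prime_dvd_prime_iff_eq hp hqp).1 h2).symm
  rw [hN, hqe]
  exact Nat.le_self_pow hn.ne' p

theorem disc : Pool.Agent.Q256.T6.S_Disc := by
  classical
  intro K L _ _ _ _ _ m J W hm hJ hJW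
  set n : ℕ := Ideal.absNorm J with hn
  have hn0 : n ≠ 0 := Ideal.absNorm_eq_zero_iff.not.2 hJ
  set D : ℕ := Module.finrank K L with hD
  have hfr : Module.finrank (𝓞 K) (𝓞 L) = D := (IsFractionRing.finrank_eq (𝓞 K) K (𝓞 L) L).symm
  -- the primes of `K`
  have hex : ∀ p : {p // p ∈ n.primeFactors}, ∃ P : Ideal (𝓞 K), P.IsMaximal ∧ P ≠ ⊥ ∧ J ≤ P ∧
      ((p : ℕ) : 𝓞 K) ∈ P ∧ (p : ℕ) ≤ Ideal.absNorm P ∧
        Ideal.under ℤ P = Ideal.span {((p : ℕ) : ℤ)} := fun p =>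
    exists_prime J p (Nat.prime_of_mem_primeFactors p.2) (Nat.dvd_of_mem_primeFactors p.2)
  choose P hmax hPne hJP hpP hPn hPu using hex
  have hPinj : ∀ v v', P v = P v' → v = v' := by
    intro v v' h
    have h0 : Ideal.span {((v : ℕ) : ℤ)} = Ideal.span {((v' : ℕ) : ℤ)} := by
      rw [← hPu, ← hPu, h]
    have h1 := Ideal.span_singleton_eq_span_singleton.1 h0
    have h2 := Int.associated_iff_natAbs.1 h1
    rw [Int.natAbs_natCast, Int.natAbs_natCast] at h2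
    exact Subtype.ext h2
  let I : {p // p ∈ n.primeFactors} → Finset (Ideal (𝓞 L)) := fun v =>
    ((P v).primesOver (𝓞 L)).toFinset
  have hI : ∀ v Q, Q ∈ I v ↔ Q.IsPrime ∧ Q.LiesOver (P v) := by
    intro v Q
    show Q ∈ ((P v).primesOver (𝓞 L)).toFinset ↔ _
    rw [Set.mem_toFinset]
    rfl
  have hbot : ∀ v Q, Q ∈ I v → Q ≠ ⊥ := by
    intro v Q hQ
    obtain ⟨h1, h2⟩ := (hI v Q).1 hQ
    exact Ideal.ne_bot_of_liesOver_of_ne_bot (hPne v) Q
  have hdisj : ∀ v ∈ (Finset.univ : Finset {p // p ∈ n.primeFactors}), ∀ v' ∈ Finset.univ,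
      v ≠ v' → Disjoint (I v) (I v') := by
    intro v _ v' _ hvv
    rw [Finset.disjoint_left]
    intro Q hQ hQ'
    have h1 := ((hI v Q).1 hQ).2.over
    have h2 := ((hI v' Q).1 hQ').2.over
    exact hvv (hPinj _ _ (h1.trans h2.symm))
  set Z := Finset.univ.biUnion I with hZ
  have hZbot : ∀ Q ∈ Z, Q.IsPrime ∧ Q ≠ ⊥ := by
    intro Q hQ
    rw [hZ, Finset.mem_biUnion] at hQ
    obtain ⟨v, _, hQ⟩ := hQ
    exact ⟨((hI v Q).1 hQ).1, hbot v Q hQ⟩
  have hlog0 : ∀ Q : Ideal (𝓞 L), 0 ≤ Real.log (Ideal.absNorm Q) := fun Q =>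
    Real.log_natCast_nonneg _
  -- factorisation
  have hmap : ∀ v : {p // p ∈ n.primeFactors}, Ideal.map (algebraMap (𝓞 K) (𝓞 L)) (P v) =
      ∏ Q ∈ I v, Q ^ Q.ramificationIdx (𝓞 K) := by
    intro v
    have := hmax v
    exact Ideal.map_algebraMap_eq_finsetProd_pow (hPne v)
  have s2 : ∀ v : {p // p ∈ n.primeFactors}, (D : ℝ) * Real.log ((v : ℕ) : ℝ) ≤
      ∑ Q ∈ I v, (Q.ramificationIdx (𝓞 K) : ℝ) * Real.log (Ideal.absNorm Q) := by
    intro v
    have h1 := Ideal.absNorm_algebraMap (𝓞 K) (𝓞 L) (P v)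
    rw [hmap v, map_prod, hfr] at h1
    have h2 : (∏ Q ∈ I v, ((Ideal.absNorm Q : ℝ)) ^ Q.ramificationIdx (𝓞 K)) =
        (Ideal.absNorm (P v) : ℝ) ^ D := by
      have h3 := congrArg (fun n : ℕ => (n : ℝ)) h1
      simp only [Nat.cast_prod, Nat.cast_pow, map_pow] at h3
      exact h3
    have h4 : ∑ Q ∈ I v, (Q.ramificationIdx (𝓞 K) : ℝ) * Real.log (Ideal.absNorm Q) =
        D * Real.log (Ideal.absNorm (P v)) := by
      rw [← Real.log_pow, ← h2, Real.log_prod]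
      · refine Finset.sum_congr rfl fun Q _ => ?_
        rw [Real.log_pow]
      · intro Q hQ
        refine pow_ne_zero _ ?_
        rw [Nat.cast_ne_zero]
        exact Ideal.absNorm_eq_zero_iff.not.2 (hbot v Q hQ)
    rw [h4]
    refine mul_le_mul_of_nonneg_left (Real.log_le_log ?_ ?_) (Nat.cast_nonneg _)
    · exact_mod_cast (Nat.prime_of_mem_primeFactors v.2).pos
    · exact_mod_cast hPn v
  have hsum : ∑ p ∈ n.primeFactors, Real.log (p : ℝ) =
      ∑ v : {p // p ∈ n.primeFactors}, Real.log ((v : ℕ) : ℝ) := by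
    rw [Finset.univ_eq_attach]
    exact (Finset.sum_attach n.primeFactors (fun p => Real.log (p : ℝ))).symm
  have s3 : (D : ℝ) * ∑ p ∈ n.primeFactors, Real.log (p : ℝ) ≤
      ∑ Q ∈ Z, (Q.ramificationIdx (𝓞 K) : ℝ) * Real.log (Ideal.absNorm Q) := by
    rw [hsum, Finset.mul_sum, hZ, Finset.sum_biUnion hdisj]
    exact Finset.sum_le_sum fun v _ => s2 v
  -- the different
  have hdvd : (∏ Q ∈ Z, Q ^ (Q.ramificationIdx (𝓞 K) - 1)) ∣ differentIdeal ℤ (𝓞 L) := by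
    refine Finset.prod_dvd_of_coprime ?_ ?_
    · intro Q hQ Q' hQ' hne
      have m1 : Q.IsMaximal := (hZbot Q hQ).1.isMaximal (hZbot Q hQ).2
      have m2 : Q'.IsMaximal := (hZbot Q' hQ').1.isMaximal (hZbot Q' hQ').2
      exact (Ideal.isCoprime_of_isMaximal hne).pow
    · intro Q hQ
      rw [hZ, Finset.mem_biUnion] at hQ
      obtain ⟨v, -, hQ⟩ := hQ
      have hvp := Nat.prime_of_mem_primeFactors v.2
      have : Fact (Nat.Prime (v : ℕ)) := ⟨hvp⟩
      have hm1 : (Ideal.span {((v : ℕ) : ℤ)}).IsMaximal := Int.ideal_span_isMaximal_of_prime (v : ℕ)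
      have hne : Ideal.span {((v : ℕ) : ℤ)} ≠ ⊥ := by
        intro h
        have h1 := Ideal.span_singleton_eq_bot.1 h
        exact hvp.ne_zero (by exact_mod_cast h1)
      refine pow_sub_one_dvd_differentIdeal ℤ (p := Ideal.span {((v : ℕ) : ℤ)}) Q _ hne ?_
      have h1 : Q ^ Q.ramificationIdx (𝓞 K) ∣ Ideal.map (algebraMap (𝓞 K) (𝓞 L)) (P v) := by
        rw [hmap v]
        exact Finset.dvd_prod_of_mem _ hQ
      refine h1.trans ?_
      rw [Ideal.dvd_iff_le, Ideal.map_span, Set.image_singleton, Ideal.span_singleton_le_iff_mem]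
      have h2 := Ideal.mem_map_of_mem (algebraMap (𝓞 K) (𝓞 L)) (hpP v)
      simpa using h2
  have hdisc : Ideal.absNorm (differentIdeal ℤ (𝓞 L)) = (discr L).natAbs :=
    NumberField.absNorm_differentIdeal L (𝓞 L)
  have hdiff0 : Ideal.absNorm (differentIdeal ℤ (𝓞 L)) ≠ 0 := by
    rw [hdisc]
    exact fun h => NumberField.discr_ne_zero L (Int.natAbs_eq_zero.1 h)
  have s4 : ∑ Q ∈ Z, ((Q.ramificationIdx (𝓞 K) - 1 : ℕ) : ℝ) * Real.log (Ideal.absNorm Q) ≤
      Real.log (Ideal.absNorm (differentIdeal ℤ (𝓞 L))) := by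
    have h1 := Ideal.absNorm_dvd_absNorm_of_le (Ideal.dvd_iff_le.1 hdvd)
    have h2 := Nat.le_of_dvd (Nat.pos_of_ne_zero hdiff0) h1
    rw [map_prod] at h2
    have h3 : Real.log ((∏ Q ∈ Z, Ideal.absNorm (Q ^ (Q.ramificationIdx (𝓞 K) - 1)) : ℕ) : ℝ) ≤
        Real.log (Ideal.absNorm (differentIdeal ℤ (𝓞 L))) := by
      refine Real.log_le_log ?_ (by exact_mod_cast h2)
      rw [Nat.cast_pos]
      refine Finset.prod_pos fun Q hQ => ?_
      rw [map_pow]
      refine pow_pos (Nat.pos_of_ne_zero ?_) _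
      exact Ideal.absNorm_eq_zero_iff.not.2 (hZbot Q hQ).2
    refine le_trans (le_of_eq ?_) h3
    push_cast
    rw [Real.log_prod]
    · refine Finset.sum_congr rfl fun Q _ => ?_
      rw [map_pow, Nat.cast_pow, Real.log_pow]
    · intro Q hQ
      rw [Nat.cast_ne_zero, map_pow]
      exact pow_ne_zero _ (Ideal.absNorm_eq_zero_iff.not.2 (hZbot Q hQ).2)
  have s5 : Real.log |(discr L : ℝ)| = Real.log (Ideal.absNorm (differentIdeal ℤ (𝓞 L))) := by
    have e1 : |(discr L : ℝ)| = ((discr L).natAbs : ℝ) := by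
      rw [← Int.cast_abs, Int.abs_eq_natAbs]
      simp
    rw [e1, hdisc]
  have s6 : ∑ Q ∈ Z, (Q.ramificationIdx (𝓞 K) : ℝ) * Real.log (Ideal.absNorm Q) ≤
      ∑ Q ∈ Z, ((Q.ramificationIdx (𝓞 K) - 1 : ℕ) : ℝ) * Real.log (Ideal.absNorm Q) +
        ∑ Q ∈ Z, Real.log (Ideal.absNorm Q) := by
    rw [← Finset.sum_add_distrib]
    refine Finset.sum_le_sum fun Q _ => ?_
    have h1 : (Q.ramificationIdx (𝓞 K) : ℝ) ≤ ((Q.ramificationIdx (𝓞 K) - 1 : ℕ) : ℝ) + 1 := by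
      exact_mod_cast (by omega : Q.ramificationIdx (𝓞 K) ≤ (Q.ramificationIdx (𝓞 K) - 1) + 1)
    have := mul_le_mul_of_nonneg_right h1 (hlog0 Q)
    linarith
  -- the ideal `W`
  have hW : (∏ Q ∈ Z, Q) ∣ W := by
    refine Finset.prod_dvd_of_coprime ?_ ?_
    · intro Q hQ Q' hQ' hne
      have m1 : Q.IsMaximal := (hZbot Q hQ).1.isMaximal (hZbot Q hQ).2
      have m2 : Q'.IsMaximal := (hZbot Q' hQ').1.isMaximal (hZbot Q' hQ').2
      exact Ideal.isCoprime_of_isMaximal hne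
    · intro Q hQ
      have hQp := (hZbot Q hQ).1
      rw [hZ, Finset.mem_biUnion] at hQ
      obtain ⟨v, -, hQ⟩ := hQ
      have hover := ((hI v Q).1 hQ).2.over
      rw [Ideal.dvd_iff_le]
      have h1 : J.map (algebraMap (𝓞 K) (𝓞 L)) ≤ Q := by
        rw [Ideal.map_le_iff_le_comap]
        refine (hJP v).trans ?_
        rw [hover]
      rw [hJW] at h1
      exact hQp.le_of_pow_le h1
  have hWn : (∏ Q ∈ Z, Ideal.absNorm Q) ^ m ≤ n ^ D := by
    have h1 := Ideal.absNorm_dvd_absNorm_of_le (Ideal.dvd_iff_le.1 (pow_dvd_pow_of_dvd hW m))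
    rw [← hJW, Ideal.absNorm_algebraMap, hfr, map_pow, map_prod] at h1
    exact Nat.le_of_dvd (pow_pos (Nat.pos_of_ne_zero hn0) _) h1
  have s7 : (m : ℝ) * ∑ Q ∈ Z, Real.log (Ideal.absNorm Q) ≤ D * Real.log n := by
    have hpos : ∀ Q ∈ Z, (Ideal.absNorm Q : ℝ) ≠ 0 := by
      intro Q hQ
      rw [Nat.cast_ne_zero]
      exact Ideal.absNorm_eq_zero_iff.not.2 (hZbot Q hQ).2
    have h5 : Real.log (((∏ Q ∈ Z, Ideal.absNorm Q) ^ m : ℕ) : ℝ) ≤
        Real.log ((n ^ D : ℕ) : ℝ) := by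
      refine Real.log_le_log ?_ (by exact_mod_cast hWn)
      rw [Nat.cast_pos]
      refine pow_pos (Finset.prod_pos fun Q hQ => Nat.pos_of_ne_zero ?_) _
      exact Ideal.absNorm_eq_zero_iff.not.2 (hZbot Q hQ).2
    push_cast at h5
    rwa [Real.log_pow, Real.log_pow, Real.log_prod hpos] at h5
  -- the sum
  have s8 : Real.log n = ∑ p ∈ n.primeFactors, (padicValNat p n : ℝ) * Real.log p := by
    have h1 : (n : ℝ) = ∏ p ∈ n.primeFactors, (p : ℝ) ^ padicValNat p n := by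
      have h2 := Nat.prod_primeFactors_pow_factorization hn0
      have h3 : (n : ℝ) = ((∏ p ∈ n.primeFactors, p ^ n.factorization p : ℕ) : ℝ) :=
        congrArg (fun k : ℕ => (k : ℝ)) h2
      rw [h3]
      push_cast
      refine Finset.prod_congr rfl fun p hp => ?_
      rw [Nat.factorization_def n (Nat.prime_of_mem_primeFactors hp)]
    conv_lhs => rw [h1]
    rw [Real.log_prod]
    · exact Finset.sum_congr rfl fun p _ => Real.log_pow _ _
    · intro p hp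
      exact pow_ne_zero _ (by exact_mod_cast (Nat.prime_of_mem_primeFactors hp).ne_zero)
  have hm0 : (0 : ℝ) < m := by exact_mod_cast hm
  have s9 : ∑ p ∈ n.primeFactors, (1 - (padicValNat p n : ℝ) / m) * Real.log p =
      ∑ p ∈ n.primeFactors, Real.log (p : ℝ) - Real.log n / m := by
    rw [s8, Finset.sum_div, ← Finset.sum_sub_distrib]
    refine Finset.sum_congr rfl fun p _ => ?_
    rw [sub_mul, one_mul, div_mul_eq_mul_div]
  rw [s9, mul_sub, s5]
  have s10 : ∑ Q ∈ Z, Real.log (Ideal.absNorm Q) ≤ (D : ℝ) * (Real.log n / m) := by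
    rw [← mul_div_assoc, le_div_iff₀ hm0, mul_comm]
    exact s7
  linarith

end Pool.Agent.Q296.T6
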